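import Pool.Agent.W_b4801b_t10k.Res

/-! The Newton test theorem for Frobenius elements which are dense in one open subgroup. -/

set_option autoImplicit false

noncomputable section

open Polynomial

universe u v

namespace Pool.Agent.B4801bH31

open Pool.Agent.B4801b Pool.Agent.T10 Pool.Agent.T10K

variable {k : Type u} [Field k]

/-- The Frobenius elements of the system are dense in the subgroup `U₀`: for every open subgroup `U`,
every `g ∈ U₀` and every finite set `T` of primes there is a place `x` of the system with `p_x ∉ T` such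
that a conjugate of the Frobenius element of `x` lies in `g U`. For a number field `k` and a finite
extension `k'` this holds for `U₀ = Gal(k')` and (the Frobenius elements of) a set of places of `k'` of
density one (Chebotarev). -/
def DenseIn {w : ℕ} (S : CompSys.{u, v} k w) (U₀ : Subgroup (Gal k)) : Prop :=
  ∀ U : Subgroup (Gal k), IsOpen (U : Set (Gal k)) → ∀ g ∈ U₀, ∀ T : Finset ℕ,
    ∃ x ∈ S.Pl, x.p ∉ T ∧ ∃ h : Gal k, g⁻¹ * (h * x.frob * h⁻¹) ∈ U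

theorem denseIn_of_denseFrob {w : ℕ} {S : CompSys.{u, v} k w} (h : DenseFrob S)
    (U₀ : Subgroup (Gal k)) : DenseIn S U₀ := fun U hU g _ T => h U hU g T

theorem exists_open_unipotent_in {j : ℕ} (S : CompSys.{u, v} k (2 * j)) (U₀ : Subgroup (Gal k))
    (hU₀ : IsOpen (U₀ : Set (Gal k))) (hd : DenseIn S U₀)
    (hN : ∀ x ∈ S.Pl, NewtonTest (S.P x) ((x.q : ℚ) ^ (2 * j)) x.p) (ℓ : ℕ) [Fact ℓ.Prime] (N : ℕ)
    (hN0 : 0 < N) (hbal : IsoBalanced (S.rep ℓ) N)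
    (W : Submodule ℚ_[ℓ] (S.rep ℓ).V) (hW : ∀ σ, ∀ y ∈ W, (S.rep ℓ).ρ σ y ∈ W)
    (hI : ∀ y ∈ W, ∀ z ∈ W, (S.rep ℓ).ψ y z = 0) :
    ∃ U : Subgroup (Gal k), IsOpen (U : Set (Gal k)) ∧ ∃ n : ℕ, ∀ σ ∈ U, ∀ x ∈ W,
      ((twist (S.rep ℓ) σ - 1) ^ n) x = 0 := by
  classical
  obtain ⟨M, hM, hroot⟩ := frob_eigenvalue S
  -- the restriction of `ρ(σ)` and of the twist to `W`
  let A : Gal k → Module.End ℚ_[ℓ] W := fun σ => ((S.rep ℓ).ρ σ).restrict (hW σ)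
  let T : Gal k → Module.End ℚ_[ℓ] W := fun σ => (cyc k ℓ σ ^ j) • A σ
  have hAc : ∀ σ (y : W), ((A σ y : W) : (S.rep ℓ).V) = (S.rep ℓ).ρ σ y := fun σ y => rfl
  have hTc : ∀ σ (y : W), ((T σ y : W) : (S.rep ℓ).V) = twist (S.rep ℓ) σ y := fun σ y => rfl
  have hAmul : ∀ σ τ, A (σ * τ) = A σ * A τ := by
    intro σ τ
    apply LinearMap.ext
    intro y
    apply Subtype.ext
    rw [Module.End.mul_apply, hAc, hAc, hAc, map_mul, Module.End.mul_apply]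
  have hA1 : A 1 = 1 := by
    apply LinearMap.ext
    intro y
    apply Subtype.ext
    rw [hAc, map_one]
    rfl
  have hcyc1 : cyc k ℓ (1 : Gal k) = 1 := by
    have h1 := Unip_cyc_mul ℓ (1 : Gal k) 1
    rw [mul_one] at h1
    exact (mul_right_cancel₀ (Unip_cyc_ne ℓ (1 : Gal k)) (by rw [one_mul]; exact h1)).symm
  have hT1 : T 1 = 1 := by
    change (cyc k ℓ (1 : Gal k) ^ j) • A 1 = 1
    rw [hcyc1, one_pow, one_smul, hA1]
  have hcont : ∀ (f : Module.Dual ℚ_[ℓ] W) (x : W), Continuous fun σ => f (T σ x) := by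
    intro f x
    obtain ⟨g, hg⟩ := LinearMap.exists_extend f
    have h1 : (fun σ => f (T σ x)) = fun σ => cyc k ℓ σ ^ j * g ((S.rep ℓ).ρ σ x) := by
      funext σ
      rw [← hg]
      change g (((T σ x : W) : (S.rep ℓ).V)) = _
      rw [hTc]
      change g ((cyc k ℓ σ ^ j) • (S.rep ℓ).ρ σ x) = _
      rw [map_smul, smul_eq_mul]
    rw [h1]
    exact ((Unip_cyc_cont ℓ).pow j).mul ((S.rep ℓ).continuous g x)
  -- the dense set
  let D : Set (Gal k) := {σ | ∃ x ∈ S.Pl, x.p ≠ ℓ ∧ ∃ h : Gal k, σ = h * x.frob * h⁻¹}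
  let D0 : Set U₀ := {σ | (σ : Gal k) ∈ D}
  have hD : Dense D0 := by
    intro g
    rw [mem_closure_iff]
    intro O hO hgO
    obtain ⟨O', hO', rfl⟩ := isOpen_induced_iff.1 hO
    have hO2 : IsOpen (O' ∩ (U₀ : Set (Gal k))) := hO'.inter hU₀
    have hO3 : (fun τ => (g : Gal k) * τ) ⁻¹' (O' ∩ (U₀ : Set (Gal k))) ∈ nhds (1 : Gal k) :=
      (hO2.preimage (continuous_const.mul continuous_id)).mem_nhds
        (by
          show (g : Gal k) * 1 ∈ O' ∩ (U₀ : Set (Gal k))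
          rw [mul_one]
          exact ⟨hgO, g.2⟩)
    obtain ⟨E, hE, hEO⟩ := (krullTopology_mem_nhds_one_iff k (AlgebraicClosure k) _).1 hO3
    obtain ⟨x, hx, hxT, h, hh⟩ := hd E.fixingSubgroup (E.fixingSubgroup_isOpen) g g.2 {ℓ}
    have h1 := hEO hh
    simp only [Set.mem_preimage, mul_inv_cancel_left, Set.mem_inter_iff] at h1
    refine ⟨⟨h * x.frob * h⁻¹, h1.2⟩, h1.1, x, hx, ?_, h, rfl⟩
    intro h0
    exact hxT (by rw [h0]; exact Finset.mem_singleton_self _)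
  have hconj : ∀ h τ : Gal k, (T (h * τ * h⁻¹)).charpoly = (T τ).charpoly := by
    intro h τ
    have hinv : A h * A h⁻¹ = 1 := by rw [← hAmul, mul_inv_cancel, hA1]
    have hinv' : A h⁻¹ * A h = 1 := by rw [← hAmul, inv_mul_cancel, hA1]
    let e : W ≃ₗ[ℚ_[ℓ]] W := LinearEquiv.ofLinear (A h) (A h⁻¹) hinv hinv'
    have h1 : T (h * τ * h⁻¹) = e.conj (T τ) := by
      apply LinearMap.ext
      intro y
      have hc : cyc k ℓ (h * τ * h⁻¹) = cyc k ℓ τ := by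
        rw [Unip_cyc_mul, Unip_cyc_mul, mul_comm (cyc k ℓ h), mul_assoc, ← Unip_cyc_mul,
          mul_inv_cancel, hcyc1, mul_one]
      change (cyc k ℓ (h * τ * h⁻¹) ^ j) • A (h * τ * h⁻¹) y = A h ((cyc k ℓ τ ^ j) • A τ (A h⁻¹ y))
      rw [hc, map_smul, hAmul, hAmul, Module.End.mul_apply, Module.End.mul_apply]
    rw [h1, LinearEquiv.charpoly_conj]
  have hq : ((X : ℚ_[ℓ][X]) ^ (2 * M) - 1) ^ Module.finrank ℚ_[ℓ] W ≠ 0 := by
    apply pow_ne_zero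
    exact (Polynomial.monic_X_pow_sub_C 1 (by omega : 2 * M ≠ 0)).ne_zero
  have hDq : ∀ σ ∈ D, (T σ).charpoly ∣ ((X : ℚ_[ℓ][X]) ^ (2 * M) - 1) ^ Module.finrank ℚ_[ℓ] W := by
    rintro _ ⟨x, hx, hxp, h, rfl⟩
    rw [hconj]
    have hdvd := UnipA_dvd (T x.frob).charpoly (LinearMap.charpoly_monic _) (2 * M)
      (AlgebraicClosure ℚ_[ℓ]) (fun γ hγ => ?_)
    · rw [LinearMap.charpoly_natDegree] at hdvd
      exact hdvd
    · have hc0 : cyc k ℓ x.frob ^ j ≠ 0 := pow_ne_zero _ (Unip_cyc_ne ℓ _)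
      have h1 := UnipA_root (A x.frob) _ hc0 (AlgebraicClosure ℚ_[ℓ]) γ hγ
      have h2 := hroot ℓ N hN0 hbal x hx (Ne.symm hxp) (hN x hx) W hW hI _ h1
      rw [map_pow, mul_div_cancel₀] at h2
      · exact h2
      · rw [← map_pow, Ne, map_eq_zero]
        exact hc0
  obtain ⟨O, hO, h1O, hOn⟩ := UnipA_main (fun σ : U₀ => T (σ : Gal k)) hT1
    (fun f x => (hcont f x).comp continuous_subtype_val) D0 hD _ hq
    (fun σ hσ => hDq (σ : Gal k) hσ)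
  obtain ⟨O', hO', rfl⟩ := isOpen_induced_iff.1 hO
  obtain ⟨E, hE, hEO⟩ := (krullTopology_mem_nhds_one_iff k (AlgebraicClosure k)
    (O' ∩ (U₀ : Set (Gal k)))).1 ((hO'.inter hU₀).mem_nhds ⟨h1O, U₀.one_mem⟩)
  refine ⟨E.fixingSubgroup, E.fixingSubgroup_isOpen, Module.finrank ℚ_[ℓ] W, fun σ hσ x hx => ?_⟩
  have h1 : (T σ - 1) ^ Module.finrank ℚ_[ℓ] W = 0 := hOn ⟨σ, (hEO hσ).2⟩ (hEO hσ).1
  have h2 : ∀ (n : ℕ) (y : W), ((((T σ - 1) ^ n) y : W) : (S.rep ℓ).V) = ((twist (S.rep ℓ) σ - 1) ^ n) y := by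
    intro n
    induction n with
    | zero => intro y; rfl
    | succ n ih =>
      intro y
      rw [pow_succ, pow_succ, Module.End.mul_apply, Module.End.mul_apply, ih]
      rfl
  have h3 := h2 (Module.finrank ℚ_[ℓ] W) ⟨x, hx⟩
  rw [h1] at h3
  exact h3.symm


/-- The Newton test theorem. -/
theorem newton_in {j : ℕ} (S : CompSys.{u, v} k (2 * j)) (U₀ : Subgroup (Gal k))
    (hU₀ : IsOpen (U₀ : Set (Gal k))) (hd : DenseIn S U₀) (hN : Newton S)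
    (ℓ : ℕ) [Fact ℓ.Prime] (hbal : BalRep (S.rep ℓ)) (hU : UnipTrivRep (S.rep ℓ)) :
    IsotropicTate (S.rep ℓ) ∧ ((S.rep ℓ).Semisimple ↔ TateNondegRep (S.rep ℓ)) := by
  obtain ⟨N, hN0, hbal⟩ := hbal
  have hb := res_balanced _ N hbal
  have hu := res_unip _ hU
  have key : ∀ W : Submodule ℚ_[ℓ] (S.rep ℓ).V, (∀ σ, ∀ y ∈ W, (S.rep ℓ).ρ σ y ∈ W) →
      (∀ y ∈ W, ∀ z ∈ W, (S.rep ℓ).ψ y z = 0) →
      ∃ U : Subgroup (Gal k), IsOpen (U : Set (Gal k)) ∧ ∀ σ ∈ U, ∀ x ∈ W,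
        twist (S.rep ℓ) σ x = x := by
    intro W hW hI
    exact hu W hW (exists_open_unipotent_in S U₀ hU₀ hd hN ℓ N hN0 hb W hW hI)
  refine ⟨fun W hW hI => ?_, ?_⟩
  · obtain ⟨U, hUo, h⟩ := key W hW hI
    exact ⟨U, hUo, fun σ hσ x hx => h σ hσ x hx⟩
  · rw [← res_nondeg]
    refine ⟨tate_of_semisimple _, fun h2 => semisimple_of_tate _ (fun W hW hI => ?_) h2⟩
    obtain ⟨U, hUo, h⟩ := key W hW hI
    exact ⟨U, hUo, fun x hx σ hσ => h σ hσ x hx⟩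

end Pool.Agent.B4801bH31
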